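import Pool.Agent.J6H66.PE.Stm

/-!
# PE-KUM: cyclic extensions over Hilbertian fields with roots of unity embed in larger cyclic ones
-/

set_option autoImplicit false

open Polynomial

namespace Pool.Agent.J6H1.PE

/-- The constant coefficient of a monic factor of `X ^ m - A`. -/
theorem const_pow {R : Type} [CommRing R] [IsDomain R] (A : R) (m : ℕ)
    (g : R[X]) (hg : g.Monic) (hd : g ∣ X ^ m - C A) :
    ∃ z : R, z ^ m = A ^ g.natDegree := by
  refine ⟨(-1) ^ g.natDegree * g.coeff 0, ?_⟩
  let F := FractionRing R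
  let Ω := AlgebraicClosure F
  let φ : R →+* Ω := (algebraMap F Ω).comp (algebraMap R F)
  have hφ : Function.Injective φ :=
    (algebraMap F Ω).injective.comp (IsFractionRing.injective R F)
  apply hφ
  have hgm : (g.map φ).Monic := hg.map φ
  have hs : (g.map φ).Splits := IsAlgClosed.splits _
  have h0 := hs.coeff_zero_eq_prod_roots_of_monic hgm
  have hnd : (g.map φ).natDegree = g.natDegree := hg.natDegree_map φ
  have hcard : (g.map φ).roots.card = g.natDegree := by
    rw [← hs.natDegree_eq_card_roots, hnd]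
  have hroot : ∀ r ∈ (g.map φ).roots, r ^ m = φ A := by
    intro r hr
    have h1 : (g.map φ).IsRoot r := isRoot_of_mem_roots hr
    have h2 : g.map φ ∣ X ^ m - C (φ A) := by
      have := Polynomial.map_dvd φ hd
      simpa using this
    have h3 : (X ^ m - C (φ A) : Polynomial Ω).IsRoot r := h1.dvd h2
    rw [IsRoot.def] at h3
    simp only [eval_sub, eval_pow, eval_X, eval_C] at h3
    exact sub_eq_zero.1 h3
  have hprod : ((g.map φ).roots.prod) ^ m = φ A ^ g.natDegree := by
    have h1 : ((g.map φ).roots.prod) ^ m = ((g.map φ).roots.map (fun r => r ^ m)).prod :=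
      (Multiset.prod_map_pow (m := (g.map φ).roots) (f := fun r => r)).symm ▸ by simp
    rw [h1, Multiset.map_congr rfl hroot, Multiset.map_const', Multiset.prod_replicate, hcard]
  have hsign : ∀ P : Ω, (-1 : Ω) ^ g.natDegree * ((-1) ^ g.natDegree * P) = P := by
    intro P
    rw [← mul_assoc, ← mul_pow, neg_one_mul, neg_neg, one_pow, one_mul]
  rw [map_pow, map_mul, map_pow, map_neg, map_one, ← coeff_map, h0, hnd, hsign, hprod, map_pow]

/-- Irreducibility of `X ^ m - a T ^ e`. -/
theorem irr {K L : Type} [Field K] [Field L] [Algebra K L] (e m : ℕ) (he : 0 < e) (hm : 0 < m)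
    (ζ : K) (hζ : IsPrimitiveRoot ζ m) (a : K) (α : L)
    (hα : α ^ e = algebraMap K L a) (ha : a ≠ 0) (hirr : Irreducible (X ^ e - C a)) :
    Irreducible (X ^ m - C (C a * X ^ e) : K[X][X]) := by
  have hmon : (X ^ m - C (C a * X ^ e) : K[X][X]).Monic := monic_X_pow_sub_C _ hm.ne'
  have hnd : (X ^ m - C (C a * X ^ e) : K[X][X]).natDegree = m := natDegree_X_pow_sub_C
  have hne : (X ^ m - C (C a * X ^ e) : K[X][X]) ≠ 1 := by
    intro h
    rw [h, natDegree_one] at hnd
    omega
  rw [hmon.irreducible_iff_lt_natDegree_lt hne]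
  intro g hg hgd hdvd
  rw [hnd, Finset.mem_Ioc] at hgd
  obtain ⟨z, hz⟩ := const_pow (C a * X ^ e) m g hg hdvd
  set d := g.natDegree with hd
  have hdm : d < m := by omega
  -- the degree
  have h1 : m * z.natDegree = d * e := by
    have := congrArg natDegree hz
    rwa [natDegree_pow, natDegree_pow, natDegree_C_mul_X_pow e a ha] at this
  -- the value at `1`
  have h2 : (z.eval 1) ^ m = a ^ d := by
    have := congrArg (eval 1) hz
    simpa using this
  set s := z.natDegree with hs
  have hs0 : 0 < s := by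
    rcases Nat.eq_zero_or_pos s with h | h
    · rw [h, mul_zero] at h1
      have := Nat.mul_pos hgd.1 he
      omega
    · exact h
  have hse : s < e := by
    by_contra h
    push Not at h
    have h3 : d * e < m * e := Nat.mul_lt_mul_of_pos_right hdm he
    have h4 : m * e ≤ m * s := Nat.mul_le_mul_left _ h
    omega
  have hα0 : α ≠ 0 := by
    rintro rfl
    rw [zero_pow he.ne'] at hα
    exact ha ((map_eq_zero (algebraMap K L)).1 hα.symm)
  have hb0 : z.eval 1 ≠ 0 := by
    intro h
    rw [h, zero_pow hm.ne'] at h2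
    exact pow_ne_zero d ha h2.symm
  have h3 : (α ^ s) ^ m = (algebraMap K L (z.eval 1)) ^ m := by
    rw [← map_pow, h2, map_pow, ← hα, ← pow_mul, ← pow_mul]
    congr 1
    rw [mul_comm s m, h1, mul_comm]
  have hζL : IsPrimitiveRoot (algebraMap K L ζ) m :=
    hζ.map_of_injective (algebraMap K L).injective
  have hbL : algebraMap K L (z.eval 1) ≠ 0 := (map_ne_zero (algebraMap K L)).2 hb0
  have h4 : (α ^ s / algebraMap K L (z.eval 1)) ^ m = 1 := by
    rw [div_pow, h3, div_self (pow_ne_zero m hbL)]
  have : NeZero m := ⟨hm.ne'⟩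
  obtain ⟨i, _, hi⟩ := hζL.eq_pow_of_pow_eq_one h4
  have h5 : α ^ s = algebraMap K L (ζ ^ i * z.eval 1) := by
    rw [map_mul, map_pow, hi, div_mul_cancel₀ _ hbL]
  -- the minimal polynomial of `α`
  have h6 : (X ^ e - C a) ∣ (X ^ s - C (ζ ^ i * z.eval 1)) := by
    have hmin : X ^ e - C a = minpoly K α := by
      refine minpoly.eq_of_irreducible_of_monic hirr ?_ (monic_X_pow_sub_C _ he.ne')
      rw [map_sub, map_pow, aeval_X, aeval_C, hα, sub_self]
    rw [hmin]
    apply minpoly.dvd
    rw [map_sub, map_pow, aeval_X, aeval_C, h5, sub_self]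
  have h7 := natDegree_le_of_dvd h6 (X_pow_sub_C_ne_zero hs0 _)
  rw [natDegree_X_pow_sub_C, natDegree_X_pow_sub_C] at h7
  omega

/-- **PE-KUM.** -/
theorem s_kum : Pool.Agent.J6H66.PE.S_KUM := by
  intro K _ _ hHilb L _ _ _ _ _ m hm hdvd hζ
  obtain ⟨ζ, hζ⟩ := hζ
  obtain ⟨f, hf⟩ := hdvd
  set e := Module.finrank K L with he
  have he0 : 0 < e := Module.finrank_pos
  have hK : (primitiveRoots (Module.finrank K L) K).Nonempty := by
    refine ⟨ζ ^ f, ?_⟩
    rw [mem_primitiveRoots Module.finrank_pos]
    exact hζ.pow hm (by rw [hf, mul_comm])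
  have hex : ∃ (a : K) (α : L), a ≠ 0 ∧ α ^ Module.finrank K L = algebraMap K L a ∧
      IntermediateField.adjoin K {α} = ⊤ := by
    obtain ⟨α, ⟨a, hα⟩, htop⟩ := exists_root_adjoin_eq_top_of_isCyclic K L hK
    by_cases ha : a = 0
    · have hirr : Irreducible (X ^ Module.finrank K L - C a) :=
        irreducible_X_pow_sub_C_of_root_adjoin_eq_top hα.symm htop
      have hdeg := degree_eq_one_of_irreducible_of_root (x := 0) hirr (by
        rw [IsRoot.def, ha]
        simp [Module.finrank_pos.ne'])
      have h1 : Module.finrank K L = 1 := by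
        have h2 := natDegree_eq_of_degree_eq_some hdeg
        rwa [natDegree_X_pow_sub_C] at h2
      refine ⟨1, 1, one_ne_zero, by simp, ?_⟩
      rw [IntermediateField.adjoin_one]
      symm
      rw [← IntermediateField.finrank_eq_one_iff, IntermediateField.finrank_top']
      exact h1
    · exact ⟨a, α, ha, hα.symm, htop⟩
  obtain ⟨a, α, ha, hα, htop⟩ := hex
  have hirr : Irreducible (X ^ Module.finrank K L - C a) :=
    irreducible_X_pow_sub_C_of_root_adjoin_eq_top hα htop
  have hsf : IsSplittingField K L (X ^ Module.finrank K L - C a) :=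
    isSplittingField_X_pow_sub_C_of_root_adjoin_eq_top hK hα htop
  rw [← he] at hirr hα hsf
  have hF := irr e m he0 hm ζ hζ a α hα ha hirr
  have hmon : (X ^ m - C (C a * X ^ e) : K[X][X]).Monic := monic_X_pow_sub_C _ hm.ne'
  have hinj := IsFractionRing.injective K[X] (FractionRing K[X])
  have hsep : ((X ^ m - C (C a * X ^ e) : K[X][X]).map
      (algebraMap K[X] (FractionRing K[X]))).Separable := by
    rw [Polynomial.map_sub, Polynomial.map_pow, map_X, map_C]
    refine separable_X_pow_sub_C _ ?_ ?_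
    · intro h
      have h1 : algebraMap K[X] (FractionRing K[X]) (m : K[X]) = 0 := by
        rw [map_natCast]
        exact h
      rw [map_eq_zero_iff _ hinj] at h1
      exact hm.ne' (Nat.cast_eq_zero.1 h1)
    · intro h
      rw [map_eq_zero_iff _ hinj] at h
      exact mul_ne_zero (C_ne_zero.2 ha) (pow_ne_zero e X_ne_zero) h
  obtain ⟨c, hc0, hc⟩ := hHilb _ hmon hF hsep X X_ne_zero
  rw [eval_X] at hc0
  have H : Irreducible (X ^ m - C (a * c ^ e) : K[X]) := by
    have h1 : (X ^ m - C (C a * X ^ e) : K[X][X]).map (evalRingHom c) =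
        X ^ m - C (a * c ^ e) := by
      simp
    rwa [h1] at hc
  have : Fact (Irreducible (X ^ m - C (a * c ^ e) : K[X])) := ⟨H⟩
  have hζm : (primitiveRoots m K).Nonempty := ⟨ζ, (mem_primitiveRoots hm).2 hζ⟩
  have : NeZero m := ⟨hm.ne'⟩
  let L' := AdjoinRoot (X ^ m - C (a * c ^ e) : K[X])
  have hsf' : IsSplittingField K L' (X ^ m - C (a * c ^ e)) :=
    isSplittingField_AdjoinRoot_X_pow_sub_C hζm H
  have hfd : FiniteDimensional K L' :=
    Polynomial.IsSplittingField.finiteDimensional L' (X ^ m - C (a * c ^ e))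
  have hgal : IsGalois K L' := isGalois_of_isSplittingField_X_pow_sub_C hζm H L'
  have hcyc : IsCyclic (L' ≃ₐ[K] L') := isCyclic_of_isSplittingField_X_pow_sub_C hζm H L'
  have hcard : Nat.card (L' ≃ₐ[K] L') = m := by
    rw [IsGalois.card_aut_eq_finrank]
    exact finrank_of_isSplittingField_X_pow_sub_C hζm H L'
  have hcL : algebraMap K L' c ≠ 0 := (map_ne_zero (algebraMap K L')).2 hc0
  have hy : ((AdjoinRoot.root (X ^ m - C (a * c ^ e) : K[X])) ^ f / algebraMap K L' c : L') ^ e =
      algebraMap K L' a := by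
    have h1 : (AdjoinRoot.root (X ^ m - C (a * c ^ e) : K[X])) ^ m =
        algebraMap K L' (a * c ^ e) := root_X_pow_sub_C_pow m (a * c ^ e)
    have h2 : algebraMap K L' (a * c ^ e) = algebraMap K L' a * algebraMap K L' c ^ e :=
      ((algebraMap K L').map_mul _ _).trans
        (congrArg (fun x => algebraMap K L' a * x) ((algebraMap K L').map_pow _ _))
    have h3 : ((AdjoinRoot.root (X ^ m - C (a * c ^ e) : K[X])) ^ f) ^ e =
        algebraMap K L' a * algebraMap K L' c ^ e := by
      rw [← pow_mul, mul_comm f e, ← hf]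
      exact h1.trans h2
    rw [div_pow, h3, mul_div_assoc, div_self (pow_ne_zero e hcL), mul_one]
  have hspl : ((X ^ e - C a : K[X]).map (algebraMap K L')).Splits := by
    rw [Polynomial.map_sub, Polynomial.map_pow, map_X, map_C]
    have hζe : IsPrimitiveRoot (algebraMap K L' (ζ ^ f)) e :=
      (hζ.pow hm (by rw [hf, mul_comm])).map_of_injective (algebraMap K L').injective
    exact X_pow_sub_C_splits_of_isPrimitiveRoot hζe hy
  let φ : L →ₐ[K] L' := IsSplittingField.lift L (X ^ e - C a) hspl
  let _ : Algebra L L' := φ.toRingHom.toAlgebra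
  have hst : IsScalarTower K L L' := IsScalarTower.of_algebraMap_eq' φ.comp_algebraMap.symm
  exact ⟨L', inferInstance, inferInstance, inferInstance, hst, hfd, hgal, hcyc, hcard⟩

end Pool.Agent.J6H1.PE
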